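import Mathlib

set_option autoImplicit false

namespace Pool.Agent.H263R2.Stress

/-- index type: outer balls, inner balls, first and second family of mirror balls -/
abbrev I := (Fin 3 ⊕ Fin 3) ⊕ (Fin 3 ⊕ Fin 3)

/-- stress between two outer balls -/
def oS (Y : Fin 3 → ℝ) (i j : Fin 3) : ℝ := if i = j then 0 else Y (-(i + j))

/-- stress between an outer ball and a mirror ball -/
noncomputable def oA (r : ℝ) (q X : Fin 3 → ℝ) (i k : Fin 3) : ℝ :=
  if i = k + 1 then X k / (r - q i) else if i = k + 2 then -X k / (r - q i) else 0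

/-- the whole stress -/
noncomputable def om (r : ℝ) (q X Z Y : Fin 3 → ℝ) : I → I → ℝ
  | .inl (.inl i), .inl (.inl j) => oS Y i j
  | .inl (.inr i), .inl (.inr j) => -(q i * q j / r ^ 2 * oS Y i j)
  | .inl (.inl i), .inr (.inl k) => oA r q X i k
  | .inl (.inl i), .inr (.inr k) => oA r q Z i k
  | .inl (.inr i), .inr (.inl k) => -(q i / r * oA r q X i k)
  | .inl (.inr i), .inr (.inr k) => -(q i / r * oA r q Z i k)
  | .inr (.inl k), .inl (.inl i) => oA r q X i k
  | .inr (.inr k), .inl (.inl i) => oA r q Z i k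
  | .inr (.inl k), .inl (.inr i) => -(q i / r * oA r q X i k)
  | .inr (.inr k), .inl (.inr i) => -(q i / r * oA r q Z i k)
  | _, _ => 0

lemma oS_symm (Y : Fin 3 → ℝ) (i j : Fin 3) : oS Y i j = oS Y j i := by
  unfold oS
  by_cases h : i = j
  · simp [h]
  · simp [h, Ne.symm h, add_comm]

lemma om_symm (r : ℝ) (q X Z Y : Fin 3 → ℝ) (a b : I) : om r q X Z Y a b = om r q X Z Y b a := by
  rcases a with (i | i) | (i | i) <;> rcases b with (j | j) | (j | j) <;>
    simp [om, oS_symm Y i j, mul_comm (q i) (q j)]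

/-- positions of all balls in one coordinate -/
noncomputable def pos (r : ℝ) (q v wp wm : Fin 3 → ℝ) : I → ℝ :=
  Sum.elim (Sum.elim v (fun i => r / q i * v i)) (Sum.elim wp wm)

lemma equil (r : ℝ) (q X Z Y v wp wm : Fin 3 → ℝ) (hr : r ≠ 0) (hq : ∀ i, q i ≠ 0)
    (hrq : ∀ i, r - q i ≠ 0) (F S : ℝ)
    (hF : ∀ k, X k * wp k + Z k * wm k +
      Y k * ((r - q (k + 1)) * v (k + 2) - (r - q (k + 2)) * v (k + 1)) = F)
    (hS : ∀ k, X k + Z k + Y k * ((r - q (k + 1)) - (r - q (k + 2))) = S) (a : I) :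
    ∑ b, om r q X Z Y a b * (pos r q v wp wm b - pos r q v wp wm a) = 0 := by
  have hF0 := hF 0
  have hF1 := hF 1
  have hF2 := hF 2
  have hS0 := hS 0
  have hS1 := hS 1
  have hS2 := hS 2
  have q0 := hq 0
  have q1 := hq 1
  have q2 := hq 2
  have r0 := hrq 0
  have r1 := hrq 1
  have r2 := hrq 2
  simp only [Fin.isValue, show (0 : Fin 3) + 1 = 1 from rfl, show (0 : Fin 3) + 2 = 2 from rfl,
    show (1 : Fin 3) + 1 = 2 from rfl, show (1 : Fin 3) + 2 = 0 from rfl,
    show (2 : Fin 3) + 1 = 0 from rfl, show (2 : Fin 3) + 2 = 1 from rfl] at hF0 hF1 hF2 hS0 hS1 hS2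
  have neg01 : -((0 : Fin 3) + 1) = 2 := by decide
  have neg02 : -((0 : Fin 3) + 2) = 1 := by decide
  have neg12 : -((1 : Fin 3) + 2) = 0 := by decide
  have neg10 : -((1 : Fin 3) + 0) = 2 := by decide
  have neg20 : -((2 : Fin 3) + 0) = 1 := by decide
  have neg21 : -((2 : Fin 3) + 1) = 0 := by decide
  have m1 : (-1 : Fin 3) = 2 := rfl
  have m2 : (-2 : Fin 3) = 1 := rfl
  rcases a with (i | i) | (i | i)
  · fin_cases i
    · simp [Fintype.sum_sum_type, Fin.sum_univ_three, om, oS, oA, pos, m1, m2]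
      field_simp
      linear_combination (hF2 - hF1) - v 0 * (hS2 - hS1)
    · simp [Fintype.sum_sum_type, Fin.sum_univ_three, om, oS, oA, pos, m1, m2]
      field_simp
      linear_combination (hF0 - hF2) - v 1 * (hS0 - hS2)
    · simp [Fintype.sum_sum_type, Fin.sum_univ_three, om, oS, oA, pos, m1, m2]
      field_simp
      linear_combination (hF1 - hF0) - v 2 * (hS1 - hS0)
  · fin_cases i
    · simp [Fintype.sum_sum_type, Fin.sum_univ_three, om, oS, oA, pos, m1, m2]
      field_simp
      linear_combination -(q 0 * (hF2 - hF1) - r * v 0 * (hS2 - hS1))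
    · simp [Fintype.sum_sum_type, Fin.sum_univ_three, om, oS, oA, pos, m1, m2]
      field_simp
      linear_combination -(q 1 * (hF0 - hF2) - r * v 1 * (hS0 - hS2))
    · simp [Fintype.sum_sum_type, Fin.sum_univ_three, om, oS, oA, pos, m1, m2]
      field_simp
      linear_combination -(q 2 * (hF1 - hF0) - r * v 2 * (hS1 - hS0))
  · fin_cases i
    · simp [Fintype.sum_sum_type, Fin.sum_univ_three, om, oS, oA, pos, m1, m2]
      field_simp
      ring
    · simp [Fintype.sum_sum_type, Fin.sum_univ_three, om, oS, oA, pos, m1, m2]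
      field_simp
      ring
    · simp [Fintype.sum_sum_type, Fin.sum_univ_three, om, oS, oA, pos, m1, m2]
      field_simp
      ring
  · fin_cases i
    · simp [Fintype.sum_sum_type, Fin.sum_univ_three, om, oS, oA, pos, m1, m2]
      field_simp
      ring
    · simp [Fintype.sum_sum_type, Fin.sum_univ_three, om, oS, oA, pos, m1, m2]
      field_simp
      ring
    · simp [Fintype.sum_sum_type, Fin.sum_univ_three, om, oS, oA, pos, m1, m2]
      field_simp
      ring

end Pool.Agent.H263R2.Stress
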