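import Mathlib

set_option autoImplicit false

namespace Pool.Agent.H263R2.Stress

open Set Filter Topology

/-- The set of reals algebraic over the rational algebra generated by a finite family is
countable. -/
lemma countable_alg {ι : Type} [Countable ι] (x : ι → ℝ) :
    {a : ℝ | IsAlgebraic (Algebra.adjoin ℚ (range x)) a}.Countable := by
  have h1 : Countable (Algebra.adjoin ℚ (range x)) := by
    rw [Algebra.adjoin_range_eq_range_aeval]
    have : Countable (MvPolynomial ι ℚ) := by
      have hc : Cardinal.mk (MvPolynomial ι ℚ) ≤ Cardinal.aleph0 := by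
        refine (MvPolynomial.cardinalMk_le_max).trans ?_
        simp
      exact Cardinal.mk_le_aleph0_iff.mp hc
    have hr : (range (MvPolynomial.aeval (R := ℚ) x)).Countable := countable_range _
    exact hr.to_subtype
  exact Algebraic.countable _ _

/-- Every open box contains an algebraically independent point. -/
lemma exists_algInd_box (ι : Type) [Finite ι] :
    ∀ a b : ι → ℝ, (∀ i, a i < b i) →
      ∃ x : ι → ℝ, (∀ i, x i ∈ Ioo (a i) (b i)) ∧ AlgebraicIndependent ℚ x := by
  induction ι using Finite.induction_empty_option with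
  | of_equiv e ih =>
    intro a b hab
    obtain ⟨x, hx, hi⟩ := ih (a ∘ e) (b ∘ e) (fun i => hab _)
    refine ⟨x ∘ e.symm, fun i => ?_, hi.comp _ e.symm.injective⟩
    have := hx (e.symm i)
    simpa using this
  | h_empty =>
    intro a b _
    refine ⟨fun i => i.elim, fun i => i.elim, ?_⟩
    rw [algebraicIndependent_empty_type_iff]
    exact (algebraMap ℚ ℝ).injective
  | h_option ih =>
    intro a b hab
    obtain ⟨x, hx, hi⟩ := ih (fun i => a (some i)) (fun i => b (some i)) (fun i => hab _)
    have hcount := countable_alg x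
    have hex : ∃ y ∈ Ioo (a none) (b none), ¬ IsAlgebraic (Algebra.adjoin ℚ (range x)) y := by
      by_contra hcon
      push Not at hcon
      have hsub : Ioo (a none) (b none) ⊆
          {y : ℝ | IsAlgebraic (Algebra.adjoin ℚ (range x)) y} := hcon
      have h2 := hcount.mono hsub
      have h3 := Cardinal.mk_Ioo_real (hab none)
      have h4 := Cardinal.le_aleph0_iff_set_countable.mpr h2
      rw [h3] at h4
      exact absurd h4 (not_le.mpr Cardinal.aleph0_lt_continuum)
    obtain ⟨y, hy, hy'⟩ := hex
    refine ⟨fun o => o.elim y x, ?_, (hi.option_iff_transcendental y).mpr hy'⟩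
    rintro (_ | i)
    · exact hy
    · exact hx i

/-- Algebraically independent points are dense. -/
lemma exists_algInd_of_eventually {ι : Type} [Finite ι] {x0 : ι → ℝ} {P : (ι → ℝ) → Prop}
    (h : ∀ᶠ x in 𝓝 x0, P x) : ∃ x, P x ∧ AlgebraicIndependent ℚ x := by
  have := Fintype.ofFinite ι
  obtain ⟨ε, hε, hb⟩ := Metric.eventually_nhds_iff.mp h
  obtain ⟨x, hx, hi⟩ := exists_algInd_box ι (fun i => x0 i - ε / 2) (fun i => x0 i + ε / 2)
    (fun i => by linarith)
  refine ⟨x, hb ?_, hi⟩
  rw [dist_pi_lt_iff hε]
  intro i
  rw [Real.dist_eq, abs_lt]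
  have := hx i
  constructor <;> linarith [this.1, this.2]

end Pool.Agent.H263R2.Stress
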