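import Mathlib

set_option autoImplicit false

namespace Pool.Agent.H263R2.Stress

open Set Filter Topology

/-- dot product of coordinate vectors -/
def dt (u v : Fin 3 → ℝ) : ℝ := u 0 * v 0 + u 1 * v 1 + u 2 * v 2

/-- cross product -/
def cr (u v : Fin 3 → ℝ) : Fin 3 → ℝ :=
  ![u 1 * v 2 - u 2 * v 1, u 2 * v 0 - u 0 * v 2, u 0 * v 1 - u 1 * v 0]

/-- Gram determinant -/
def gr (u v : Fin 3 → ℝ) : ℝ := dt u u * dt v v - dt u v ^ 2

/-- triple product -/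
def tp (u v w : Fin 3 → ℝ) : ℝ := dt (cr u v) w

/-- linear combination of `P`, `Q` and their cross product -/
def lc (x y z : ℝ) (P Q : Fin 3 → ℝ) : Fin 3 → ℝ := fun i => x * P i + y * Q i + z * cr P Q i

/-- the discriminant -/
def disc (P Q : Fin 3 → ℝ) (a b c : ℝ) : ℝ :=
  c * gr P Q - (a * (a * dt Q Q - b * dt P Q) + b * (b * dt P P - a * dt P Q))

/-- the point with given inner products with `P`, `Q` and given norm square -/
noncomputable def wf (s : ℝ) (P Q : Fin 3 → ℝ) (a b c : ℝ) : Fin 3 → ℝ :=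
  lc ((a * dt Q Q - b * dt P Q) / gr P Q) ((b * dt P P - a * dt P Q) / gr P Q)
    (s * √(disc P Q a b c) / gr P Q) P Q

lemma gr_eq (P Q : Fin 3 → ℝ) : gr P Q = dt (cr P Q) (cr P Q) := by
  simp [gr, dt, cr]; ring

lemma lc_P (x y z : ℝ) (P Q : Fin 3 → ℝ) : dt (lc x y z P Q) P = x * dt P P + y * dt P Q := by
  simp [lc, dt, cr]; ring

lemma lc_Q (x y z : ℝ) (P Q : Fin 3 → ℝ) : dt (lc x y z P Q) Q = x * dt P Q + y * dt Q Q := by
  simp [lc, dt, cr]; ring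

lemma lc_self (x y z : ℝ) (P Q : Fin 3 → ℝ) : dt (lc x y z P Q) (lc x y z P Q) =
    x ^ 2 * dt P P + y ^ 2 * dt Q Q + 2 * x * y * dt P Q + z ^ 2 * gr P Q := by
  simp [lc, dt, cr, gr]; ring

lemma wf_dot_P (s : ℝ) (P Q : Fin 3 → ℝ) (a b c : ℝ) (h : gr P Q ≠ 0) :
    dt (wf s P Q a b c) P = a := by
  rw [wf, lc_P]
  field_simp
  simp only [gr]; ring

lemma wf_dot_Q (s : ℝ) (P Q : Fin 3 → ℝ) (a b c : ℝ) (h : gr P Q ≠ 0) :
    dt (wf s P Q a b c) Q = b := by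
  rw [wf, lc_Q]
  field_simp
  simp only [gr]; ring

lemma wf_norm (s : ℝ) (hs : s ^ 2 = 1) (P Q : Fin 3 → ℝ) (a b c : ℝ) (h : gr P Q ≠ 0)
    (hd : 0 ≤ disc P Q a b c) :
    dt (wf s P Q a b c) (wf s P Q a b c) = c := by
  have hsq : √(disc P Q a b c) ^ 2 = disc P Q a b c := Real.sq_sqrt hd
  have h3 : (s * √(disc P Q a b c) / gr P Q) ^ 2 = disc P Q a b c / gr P Q ^ 2 := by
    rw [div_pow, mul_pow, hs, hsq, one_mul]
  rw [wf, lc_self, h3, disc]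
  field_simp
  simp only [gr]; ring

/-- at the base point the formula gives back the base vector -/
lemma wf_base (P Q w : Fin 3 → ℝ) (s : ℝ) (h : gr P Q ≠ 0) (hs : s * |tp P Q w| = tp P Q w) :
    wf s P Q (dt w P) (dt w Q) (dt w w) = w := by
  have hD : disc P Q (dt w P) (dt w Q) (dt w w) = tp P Q w ^ 2 := by
    simp [disc, gr, dt, tp, cr]; ring
  funext i
  simp only [wf, lc]
  rw [hD, Real.sqrt_sq_eq_abs, hs]
  have key : (dt w P * dt Q Q - dt w Q * dt P Q) * P i + (dt w Q * dt P P - dt w P * dt P Q) * Q i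
      + tp P Q w * cr P Q i = w i * gr P Q := by
    fin_cases i <;> simp [gr, dt, tp, cr] <;> ring
  field_simp
  linear_combination key

lemma dt_tendsto {α : Type*} {l : Filter α} {P Q : α → Fin 3 → ℝ} {P0 Q0 : Fin 3 → ℝ}
    (hP : Tendsto P l (𝓝 P0)) (hQ : Tendsto Q l (𝓝 Q0)) :
    Tendsto (fun x => dt (P x) (Q x)) l (𝓝 (dt P0 Q0)) := by
  have h1 := fun i => (tendsto_pi_nhds.mp hP) i
  have h2 := fun i => (tendsto_pi_nhds.mp hQ) i
  exact ((((h1 0).mul (h2 0)).add ((h1 1).mul (h2 1))).add ((h1 2).mul (h2 2)))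

lemma cr_tendsto {α : Type*} {l : Filter α} {P Q : α → Fin 3 → ℝ} {P0 Q0 : Fin 3 → ℝ}
    (hP : Tendsto P l (𝓝 P0)) (hQ : Tendsto Q l (𝓝 Q0)) (i : Fin 3) :
    Tendsto (fun x => cr (P x) (Q x) i) l (𝓝 (cr P0 Q0 i)) := by
  have h1 := fun i => (tendsto_pi_nhds.mp hP) i
  have h2 := fun i => (tendsto_pi_nhds.mp hQ) i
  fin_cases i
  · exact (((h1 1).mul (h2 2)).sub ((h1 2).mul (h2 1)))
  · exact (((h1 2).mul (h2 0)).sub ((h1 0).mul (h2 2)))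
  · exact (((h1 0).mul (h2 1)).sub ((h1 1).mul (h2 0)))

lemma gr_tendsto {α : Type*} {l : Filter α} {P Q : α → Fin 3 → ℝ} {P0 Q0 : Fin 3 → ℝ}
    (hP : Tendsto P l (𝓝 P0)) (hQ : Tendsto Q l (𝓝 Q0)) :
    Tendsto (fun x => gr (P x) (Q x)) l (𝓝 (gr P0 Q0)) :=
  ((dt_tendsto hP hP).mul (dt_tendsto hQ hQ)).sub ((dt_tendsto hP hQ).pow 2)

/-- The placement lemma. -/
lemma place {α : Type*} {l : Filter α} {P Q : α → Fin 3 → ℝ} {a b c : α → ℝ}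
    {P0 Q0 w0 : Fin 3 → ℝ} (hP : Tendsto P l (𝓝 P0)) (hQ : Tendsto Q l (𝓝 Q0))
    (ha : Tendsto a l (𝓝 (dt w0 P0))) (hb : Tendsto b l (𝓝 (dt w0 Q0)))
    (hc : Tendsto c l (𝓝 (dt w0 w0))) (hdet : tp P0 Q0 w0 ≠ 0) :
    ∃ w : α → Fin 3 → ℝ, Tendsto w l (𝓝 w0) ∧
      ∀ᶠ x in l, dt (w x) (P x) = a x ∧ dt (w x) (Q x) = b x ∧ dt (w x) (w x) = c x := by
  -- the sign
  obtain ⟨s, hs1, hs2⟩ : ∃ s : ℝ, s ^ 2 = 1 ∧ s * |tp P0 Q0 w0| = tp P0 Q0 w0 := by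
    rcases lt_or_gt_of_ne hdet with h | h
    · exact ⟨-1, by norm_num, by rw [abs_of_neg h]; ring⟩
    · exact ⟨1, by norm_num, by rw [abs_of_pos h]; ring⟩
  have hD : disc P0 Q0 (dt w0 P0) (dt w0 Q0) (dt w0 w0) = tp P0 Q0 w0 ^ 2 := by
    simp [disc, gr, dt, tp, cr]; ring
  have hg : gr P0 Q0 ≠ 0 := by
    intro h0
    apply hdet
    rw [gr_eq] at h0
    have h1 : cr P0 Q0 0 = 0 ∧ cr P0 Q0 1 = 0 ∧ cr P0 Q0 2 = 0 := by
      simp only [dt] at h0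
      refine ⟨?_, ?_, ?_⟩ <;>
        nlinarith [sq_nonneg (cr P0 Q0 0), sq_nonneg (cr P0 Q0 1), sq_nonneg (cr P0 Q0 2)]
    simp only [tp, dt, h1.1, h1.2.1, h1.2.2]
    ring
  have hpp := dt_tendsto hP hP
  have hqq := dt_tendsto hQ hQ
  have hpq := dt_tendsto hP hQ
  have hgr := gr_tendsto hP hQ
  have hdisc : Tendsto (fun x => disc (P x) (Q x) (a x) (b x) (c x)) l
      (𝓝 (tp P0 Q0 w0 ^ 2)) := by
    rw [← hD]
    exact (hc.mul hgr).sub ((ha.mul ((ha.mul hqq).sub (hb.mul hpq))).add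
      (hb.mul ((hb.mul hpp).sub (ha.mul hpq))))
  refine ⟨fun x => wf s (P x) (Q x) (a x) (b x) (c x), ?_, ?_⟩
  · have hb0 := wf_base P0 Q0 w0 s hg hs2
    rw [tendsto_pi_nhds]
    intro i
    have hw : w0 i = wf s P0 Q0 (dt w0 P0) (dt w0 Q0) (dt w0 w0) i := by rw [hb0]
    rw [hw]
    simp only [wf, lc]
    rw [hD]
    have hPi := (tendsto_pi_nhds.mp hP) i
    have hQi := (tendsto_pi_nhds.mp hQ) i
    refine ((((((ha.mul hqq).sub (hb.mul hpq)).div hgr hg).mul hPi).add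
      ((((hb.mul hpp).sub (ha.mul hpq)).div hgr hg).mul hQi))).add ?_
    exact (((tendsto_const_nhds.mul hdisc.sqrt).div hgr hg).mul (cr_tendsto hP hQ i))
  · have e1 : ∀ᶠ x in l, gr (P x) (Q x) ≠ 0 := hgr.eventually_ne hg
    have e2 : ∀ᶠ x in l, 0 < disc (P x) (Q x) (a x) (b x) (c x) :=
      hdisc.eventually_const_lt (by positivity)
    filter_upwards [e1, e2] with x h1 h2
    exact ⟨wf_dot_P _ _ _ _ _ _ h1, wf_dot_Q _ _ _ _ _ _ h1, wf_norm _ hs1 _ _ _ _ _ h1 h2.le⟩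

end Pool.Agent.H263R2.Stress
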