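import Mathlib

set_option autoImplicit false

namespace Pool.Agent.H263R2.Stress

/-- the linear map whose kernel gives the stresses -/
def Gmap (wp wm v : Fin 3 → Fin 3 → ℝ) (g : Fin 3 → ℝ) (k : Fin 3) :
    (Fin 3 → Fin 3 → ℝ) →ₗ[ℝ] (Fin 4 → ℝ) where
  toFun u := Fin.cons
    (u 0 k + u 1 k + u 2 k * (g (k + 1) - g (k + 2)))
    (fun c => u 0 k * wp k c + u 1 k * wm k c +
      u 2 k * (g (k + 1) * v (k + 2) c - g (k + 2) * v (k + 1) c))
  map_add' u u' := by
    funext c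
    refine Fin.cases ?_ (fun c => ?_) c
    · simp; ring
    · simp; ring
  map_smul' t u := by
    funext c
    refine Fin.cases ?_ (fun c => ?_) c
    · simp; ring
    · simp; ring

lemma exists_sol (wp wm v : Fin 3 → Fin 3 → ℝ) (g : Fin 3 → ℝ) :
    ∃ X Z Y : Fin 3 → ℝ, (X ≠ 0 ∨ Z ≠ 0 ∨ Y ≠ 0) ∧ ∃ (F : Fin 3 → ℝ) (S : ℝ),
      (∀ c k, X k * wp k c + Z k * wm k c +
        Y k * (g (k + 1) * v (k + 2) c - g (k + 2) * v (k + 1) c) = F c) ∧
      ∀ k, X k + Z k + Y k * (g (k + 1) - g (k + 2)) = S := by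
  let L : (Fin 3 → Fin 3 → ℝ) →ₗ[ℝ] (Fin 4 → ℝ) × (Fin 4 → ℝ) :=
    (Gmap wp wm v g 0 - Gmap wp wm v g 1).prod (Gmap wp wm v g 1 - Gmap wp wm v g 2)
  have hker : LinearMap.ker L ≠ ⊥ := by
    apply LinearMap.ker_ne_bot_of_finrank_lt
    simp [Module.finrank_pi_fintype]
  obtain ⟨u, hu, hu0⟩ := (Submodule.ne_bot_iff _).mp hker
  have hL : L u = 0 := hu
  have h1 : Gmap wp wm v g 0 u = Gmap wp wm v g 1 u := by
    have := congrArg Prod.fst hL
    simpa [L, sub_eq_zero] using this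
  have h2 : Gmap wp wm v g 1 u = Gmap wp wm v g 2 u := by
    have := congrArg Prod.snd hL
    simpa [L, sub_eq_zero] using this
  have hall : ∀ k, Gmap wp wm v g k u = Gmap wp wm v g 0 u := by
    intro k
    fin_cases k
    · rfl
    · exact h1.symm
    · exact (h1.trans h2).symm
  refine ⟨u 0, u 1, u 2, ?_, fun c => Gmap wp wm v g 0 u c.succ, Gmap wp wm v g 0 u 0, ?_, ?_⟩
  · by_contra hcon
    push Not at hcon
    apply hu0
    funext k
    fin_cases k
    · exact hcon.1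
    · exact hcon.2.1
    · exact hcon.2.2
  · intro c k
    rw [← hall k]
    simp [Gmap]
  · intro k
    rw [← hall k]
    simp [Gmap]

end Pool.Agent.H263R2.Stress
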