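import Pool.Agent.H263R2.Stress.Gen
import Pool.Agent.H263R2.Stress.Place
import Pool.Agent.H263R2.Stress.Equil
import Pool.Agent.H263R2.Stress.Sol

set_option autoImplicit false

namespace Pool.Agent.H263R2.Stress

open Set Filter Topology

/-- integral base positions -/
def B : I → Fin 3 → ℤ
  | .inl (.inl i) => fun c => if c = i then 96 else 32
  | .inl (.inr i) => fun c => if c = i then 36 else 12
  | .inr (.inl i) => fun c => if c = i then -84 else 41
  | .inr (.inr i) => fun c => if c = i then 16 else 41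

/-- base radii divided by the square root of two -/
def sI : I → ℤ
  | .inl (.inl _) => 32
  | .inl (.inr _) => 12
  | .inr (.inl _) => 59
  | .inr (.inr _) => 9

/-- the contact relation -/
def con : I → I → Prop
  | .inl (.inl i), .inl (.inl j) => i ≠ j
  | .inl (.inr i), .inl (.inr j) => i ≠ j
  | .inl (.inl i), .inr (.inl k) => i ≠ k
  | .inl (.inl i), .inr (.inr k) => i ≠ k
  | .inl (.inr i), .inr (.inl k) => i ≠ k
  | .inl (.inr i), .inr (.inr k) => i ≠ k
  | .inr (.inl k), .inl (.inl i) => i ≠ k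
  | .inr (.inr k), .inl (.inl i) => i ≠ k
  | .inr (.inl k), .inl (.inr i) => i ≠ k
  | .inr (.inr k), .inl (.inr i) => i ≠ k
  | _, _ => False

instance : DecidableRel con := fun a b => by
  rcases a with (i | i) | (i | i) <;> rcases b with (j | j) | (j | j) <;>
    (unfold con; infer_instance)

lemma base_sep : ∀ a b : I, a ≠ b → ¬ con a b →
    2 * (sI a + sI b) ^ 2 < (B a 0 - B b 0) ^ 2 + (B a 1 - B b 1) ^ 2 + (B a 2 - B b 2) ^ 2 := by
  decide +kernel

lemma oS_con {Y : Fin 3 → ℝ} {i j : Fin 3} (h : oS Y i j ≠ 0) : i ≠ j := by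
  rintro rfl
  simp [oS] at h

lemma oA_con {r : ℝ} {q X : Fin 3 → ℝ} {i k : Fin 3} (h : oA r q X i k ≠ 0) : i ≠ k := by
  rintro rfl
  have h1 : i ≠ i + 1 := by fin_cases i <;> decide
  have h2 : i ≠ i + 2 := by fin_cases i <;> decide
  simp [oA, h1, h2] at h

lemma om_con {r : ℝ} {q X Z Y : Fin 3 → ℝ} {a b : I} (h : om r q X Z Y a b ≠ 0) : con a b := by
  rcases a with (i | i) | (i | i) <;> rcases b with (j | j) | (j | j) <;>
    simp only [om, con, ne_eq, neg_eq_zero, mul_eq_zero, not_or, not_true_eq_false] at h ⊢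
  · exact oS_con h
  · exact oA_con h
  · exact oA_con h
  · exact oS_con h.2
  · exact oA_con h.2
  · exact oA_con h.2
  · exact oA_con h
  · exact oA_con h.2
  · exact oA_con h
  · exact oA_con h.2

lemma con_ne {a b : I} (h : con a b) : a ≠ b := by
  rintro rfl
  rcases a with (i | i) | (i | i) <;> simp [con] at h

/-- real base positions -/
def BR (a : I) : Fin 3 → ℝ := fun c => (B a c : ℝ)

/-- base radii -/
noncomputable def r0 (a : I) : ℝ := √2 * (sI a : ℝ)

/-- outer, inner, first, second -/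
def o (i : Fin 3) : I := .inl (.inl i)
def n (i : Fin 3) : I := .inl (.inr i)
def wa (i : Fin 3) : I := .inr (.inl i)
def wb (i : Fin 3) : I := .inr (.inr i)

/-- power of the origin with respect to the outer balls -/
noncomputable def qq (r : I → ℝ) (i : Fin 3) : ℝ := 3456 * r (o i) / r (n i)

lemma sqrt2_pos : (0 : ℝ) < √2 := by positivity
lemma sqrt2_sq : √2 * √2 = (2 : ℝ) := Real.mul_self_sqrt (by norm_num)

lemma r0_mul (a b : I) : r0 a * r0 b = 2 * ((sI a : ℝ) * (sI b : ℝ)) := by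
  unfold r0
  linear_combination ((sI a : ℝ) * (sI b : ℝ)) * sqrt2_sq

lemma r0_pos (a : I) : 0 < r0 a := by
  unfold r0
  have : (0 : ℝ) < sI a := by
    rcases a with (i | i) | (i | i) <;> simp [sI]
  have := sqrt2_pos
  positivity

lemma qq_base (i : Fin 3) : qq r0 i = 9216 := by
  have h := sqrt2_pos.ne'
  simp only [qq, r0, o, n, sI]
  push_cast
  field_simp
  norm_num

lemma tr (a : I) : Tendsto (fun r : I → ℝ => r a) (𝓝 r0) (𝓝 (r0 a)) :=
  (continuous_apply a).tendsto _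

lemma tq (i : Fin 3) : Tendsto (fun r : I → ℝ => qq r i) (𝓝 r0) (𝓝 9216) := by
  rw [← qq_base i]
  exact (tendsto_const_nhds.mul (tr _)).div (tr _) (r0_pos _).ne'

/-- tendsto with computed limit -/
lemma tcast {f : (I → ℝ) → ℝ} {x y : ℝ} (h : Tendsto f (𝓝 r0) (𝓝 x)) (hxy : x = y) :
    Tendsto f (𝓝 r0) (𝓝 y) := hxy ▸ h

/-- norm square of an outer centre -/
noncomputable def gs (r : I → ℝ) (i : Fin 3) : ℝ := r (o i) * r (o i) + qq r i
/-- inner product of two outer centres -/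
noncomputable def gi (r : I → ℝ) (i j : Fin 3) : ℝ := (qq r i + qq r j) / 2 - r (o i) * r (o j)

lemma tgs (i : Fin 3) : Tendsto (fun r : I → ℝ => gs r i) (𝓝 r0) (𝓝 11264) := by
  refine tcast (((tr _).mul (tr _)).add (tq i)) ?_
  rw [r0_mul]; simp [o, sI]; norm_num

lemma tgi (i j : Fin 3) : Tendsto (fun r : I → ℝ => gi r i j) (𝓝 r0) (𝓝 7168) := by
  refine tcast ((((tq i).add (tq j)).div_const 2).sub ((tr _).mul (tr _))) ?_
  rw [r0_mul]; simp [o, sI]; norm_num

/-- inner product of a mirror centre with an outer centre -/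
noncomputable def gw (r : I → ℝ) (a : I) (i : Fin 3) : ℝ := (3456 + qq r i) / 2 - r a * r (o i)
/-- norm square of a mirror centre -/
noncomputable def gn (r : I → ℝ) (a : I) : ℝ := 3456 + r a * r a

lemma tgw (a : I) (i : Fin 3) : Tendsto (fun r : I → ℝ => gw r a i) (𝓝 r0)
    (𝓝 (6336 - 64 * (sI a : ℝ))) := by
  refine tcast (((tendsto_const_nhds.add (tq i)).div_const 2).sub ((tr _).mul (tr _))) ?_
  rw [r0_mul]; simp [o, sI]; ring

lemma tgn (a : I) : Tendsto (fun r : I → ℝ => gn r a) (𝓝 r0)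
    (𝓝 (3456 + 2 * (sI a : ℝ) ^ 2)) := by
  refine tcast (tendsto_const_nhds.add ((tr _).mul (tr _))) ?_
  rw [r0_mul]; ring

lemma exists_outer : ∃ v : Fin 3 → (I → ℝ) → Fin 3 → ℝ,
    (∀ i, Tendsto (v i) (𝓝 r0) (𝓝 (BR (o i)))) ∧
    ∀ᶠ r in 𝓝 r0, (∀ i, dt (v i r) (v i r) = gs r i) ∧
      (∀ i j, i ≠ j → dt (v i r) (v j r) = gi r i j) := by
  have e00 : dt (BR (o 0)) (BR (o 0)) = 11264 := by simp [dt, BR, B, o]; norm_num
  have e11 : dt (BR (o 1)) (BR (o 1)) = 11264 := by simp [dt, BR, B, o]; norm_num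
  have e22 : dt (BR (o 2)) (BR (o 2)) = 11264 := by simp [dt, BR, B, o]; norm_num
  have e10 : dt (BR (o 1)) (BR (o 0)) = 7168 := by simp [dt, BR, B, o]; norm_num
  have e20 : dt (BR (o 2)) (BR (o 0)) = 7168 := by simp [dt, BR, B, o]; norm_num
  have e21 : dt (BR (o 2)) (BR (o 1)) = 7168 := by simp [dt, BR, B, o]; norm_num
  obtain ⟨v0, t0, E0⟩ := place (l := 𝓝 r0) (P := fun _ => ![0, 1, 0]) (Q := fun _ => ![0, 0, 1])
    (a := fun _ => dt (BR (o 0)) ![0, 1, 0]) (b := fun _ => dt (BR (o 0)) ![0, 0, 1])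
    (c := fun r => gs r 0) (w0 := BR (o 0)) tendsto_const_nhds tendsto_const_nhds
    tendsto_const_nhds tendsto_const_nhds (tcast (tgs 0) e00.symm)
    (by simp [tp, dt, cr, BR, B, o])
  obtain ⟨v1, t1, E1⟩ := place (l := 𝓝 r0) (P := v0) (Q := fun _ => ![0, 0, 1])
    (a := fun r => gi r 1 0) (b := fun _ => dt (BR (o 1)) ![0, 0, 1])
    (c := fun r => gs r 1) (w0 := BR (o 1)) t0 tendsto_const_nhds
    (tcast (tgi 1 0) e10.symm) tendsto_const_nhds (tcast (tgs 1) e11.symm)
    (by simp [tp, dt, cr, BR, B, o]; norm_num)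
  obtain ⟨v2, t2, E2⟩ := place (l := 𝓝 r0) (P := v0) (Q := v1)
    (a := fun r => gi r 2 0) (b := fun r => gi r 2 1)
    (c := fun r => gs r 2) (w0 := BR (o 2)) t0 t1
    (tcast (tgi 2 0) e20.symm) (tcast (tgi 2 1) e21.symm) (tcast (tgs 2) e22.symm)
    (by simp [tp, dt, cr, BR, B, o]; norm_num)
  have dcomm : ∀ u w : Fin 3 → ℝ, dt u w = dt w u := by intro u w; simp only [dt]; ring
  have gcomm : ∀ (r : I → ℝ) (i j : Fin 3), gi r i j = gi r j i := by
    intro r i j; simp only [gi]; ring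
  refine ⟨![v0, v1, v2], ?_, ?_⟩
  · intro i
    fin_cases i
    · exact t0
    · exact t1
    · exact t2
  · filter_upwards [E0, E1, E2] with r h0 h1 h2
    constructor
    · intro i
      fin_cases i
      · exact h0.2.2
      · exact h1.2.2
      · exact h2.2.2
    · intro i j hij
      fin_cases i <;> fin_cases j
      · exact absurd rfl hij
      · show dt (v0 r) (v1 r) = _
        rw [dcomm, h1.1, gcomm]; rfl
      · show dt (v0 r) (v2 r) = _
        rw [dcomm, h2.1, gcomm]; rfl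
      · exact h1.1
      · exact absurd rfl hij
      · show dt (v1 r) (v2 r) = _
        rw [dcomm, h2.2.1, gcomm]; rfl
      · exact h2.1
      · exact h2.2.1
      · exact absurd rfl hij

lemma exists_mirror (f : Fin 3 → I) (hf : f = wa ∨ f = wb)
    (v : Fin 3 → (I → ℝ) → Fin 3 → ℝ) (hv : ∀ i, Tendsto (v i) (𝓝 r0) (𝓝 (BR (o i)))) :
    ∃ w : Fin 3 → (I → ℝ) → Fin 3 → ℝ,
    (∀ k, Tendsto (w k) (𝓝 r0) (𝓝 (BR (f k)))) ∧
    ∀ᶠ r in 𝓝 r0, (∀ k, dt (w k r) (w k r) = gn r (f k)) ∧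
      (∀ k i, i ≠ k → dt (w k r) (v i r) = gw r (f k) i) := by
  have key : ∀ k : Fin 3, ∃ w : (I → ℝ) → Fin 3 → ℝ, Tendsto w (𝓝 r0) (𝓝 (BR (f k))) ∧
      ∀ᶠ r in 𝓝 r0, dt (w r) (v (k + 1) r) = gw r (f k) (k + 1) ∧
        dt (w r) (v (k + 2) r) = gw r (f k) (k + 2) ∧ dt (w r) (w r) = gn r (f k) := by
    intro k
    refine place (hv (k + 1)) (hv (k + 2)) (tcast (tgw _ _) ?_) (tcast (tgw _ _) ?_)
      (tcast (tgn _) ?_) ?_
    · rcases hf with rfl | rfl <;> fin_cases k <;>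
        simp [dt, BR, B, o, wa, wb, sI] <;> norm_num
    · rcases hf with rfl | rfl <;> fin_cases k <;>
        simp [dt, BR, B, o, wa, wb, sI] <;> norm_num
    · rcases hf with rfl | rfl <;> fin_cases k <;>
        simp [dt, BR, B, wa, wb, sI] <;> norm_num
    · rcases hf with rfl | rfl <;> fin_cases k <;>
        simp [tp, cr, dt, BR, B, o, wa, wb] <;> norm_num
  choose w hw hw' using key
  refine ⟨w, hw, ?_⟩
  filter_upwards [eventually_all.mpr hw'] with r h
  refine ⟨fun k => (h k).2.2, fun k i hik => ?_⟩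
  have : i = k + 1 ∨ i = k + 2 := by
    revert hik; fin_cases i <;> fin_cases k <;> decide
  rcases this with rfl | rfl
  · exact (h k).1
  · exact (h k).2.1

/-- squared distance -/
def sd (u w : Fin 3 → ℝ) : ℝ := (u 0 - w 0) ^ 2 + (u 1 - w 1) ^ 2 + (u 2 - w 2) ^ 2

lemma sd_eq (u w : Fin 3 → ℝ) : sd u w = dt u u + dt w w - 2 * dt u w := by
  simp only [sd, dt]; ring

/-- all centres -/
noncomputable def PP (r : I → ℝ) (v wp wm : Fin 3 → Fin 3 → ℝ) : I → Fin 3 → ℝ
  | .inl (.inl i) => v i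
  | .inl (.inr i) => fun c => 3456 / qq r i * v i c
  | .inr (.inl k) => wp k
  | .inr (.inr k) => wm k

lemma PP_pos (r : I → ℝ) (v wp wm : Fin 3 → Fin 3 → ℝ) (a : I) (c : Fin 3) :
    PP r v wp wm a c = pos 3456 (qq r) (fun i => v i c) (fun k => wp k c) (fun k => wm k c) a := by
  rcases a with (i | i) | (i | i) <;> rfl

/-- a good radius vector -/
structure Good (r : I → ℝ) (v wp wm : Fin 3 → Fin 3 → ℝ) : Prop where
  pos : ∀ a, 0 < r a
  q1 : ∀ i, 3456 < qq r i
  vv : ∀ i, dt (v i) (v i) = gs r i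
  vw : ∀ i j, i ≠ j → dt (v i) (v j) = gi r i j
  pp : ∀ k, dt (wp k) (wp k) = gn r (wa k)
  pv : ∀ k i, i ≠ k → dt (wp k) (v i) = gw r (wa k) i
  mm : ∀ k, dt (wm k) (wm k) = gn r (wb k)
  mv : ∀ k i, i ≠ k → dt (wm k) (v i) = gw r (wb k) i
  sep : ∀ a b, a ≠ b → ¬ con a b → (r a + r b) ^ 2 ≤ sd (PP r v wp wm a) (PP r v wp wm b)

lemma inner_r {r : I → ℝ} (hpos : ∀ a, 0 < r a) (i : Fin 3) :
    r (n i) = 3456 / qq r i * r (o i) := by
  have h1 := (hpos (n i)).ne'
  have h2 := (hpos (o i)).ne'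
  simp only [qq]
  field_simp

lemma contact_oo {r : I → ℝ} {v wp wm : Fin 3 → Fin 3 → ℝ} (h : Good r v wp wm) {i j : Fin 3}
    (hij : i ≠ j) : (r (o i) + r (o j)) ^ 2 = sd (v i) (v j) := by
  rw [sd_eq, h.vv, h.vv, h.vw i j hij]
  simp only [gs, gi]; ring

lemma contact_nn {r : I → ℝ} {v wp wm : Fin 3 → Fin 3 → ℝ} (h : Good r v wp wm) {i j : Fin 3}
    (hij : i ≠ j) : (r (n i) + r (n j)) ^ 2 =
      sd (fun c => 3456 / qq r i * v i c) (fun c => 3456 / qq r j * v j c) := by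
  have hqi : qq r i ≠ 0 := by linarith [h.q1 i]
  have hqj : qq r j ≠ 0 := by linarith [h.q1 j]
  have e : sd (fun c => 3456 / qq r i * v i c) (fun c => 3456 / qq r j * v j c) =
      (3456 / qq r i) ^ 2 * dt (v i) (v i) + (3456 / qq r j) ^ 2 * dt (v j) (v j)
        - 2 * (3456 / qq r i) * (3456 / qq r j) * dt (v i) (v j) := by
    simp only [sd, dt]; ring
  rw [e, h.vv, h.vv, h.vw i j hij, inner_r h.pos, inner_r h.pos]
  simp only [gs, gi]
  field_simp
  ring

lemma contact_ow {r : I → ℝ} {i : Fin 3} {v w : Fin 3 → ℝ} {a : I}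
    (hv : dt v v = gs r i) (hw : dt w w = gn r a) (hvw : dt w v = gw r a i) :
    (r (o i) + r a) ^ 2 = sd v w := by
  have hc : dt v w = dt w v := by simp only [dt]; ring
  rw [sd_eq, hc, hv, hw, hvw]
  simp only [gs, gn, gw]; ring

lemma contact_nw {r : I → ℝ} (hpos : ∀ a, 0 < r a) {i : Fin 3} {v w : Fin 3 → ℝ} {a : I}
    (hq : qq r i ≠ 0)
    (hv : dt v v = gs r i) (hw : dt w w = gn r a) (hvw : dt w v = gw r a i) :
    (r (n i) + r a) ^ 2 = sd (fun c => 3456 / qq r i * v c) w := by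
  have e : sd (fun c => 3456 / qq r i * v c) w =
      (3456 / qq r i) ^ 2 * dt v v + dt w w - 2 * (3456 / qq r i) * dt w v := by
    simp only [sd, dt]; ring
  rw [e, hv, hw, hvw, inner_r hpos]
  simp only [gs, gn, gw]
  field_simp
  ring

lemma sd_comm (u w : Fin 3 → ℝ) : sd u w = sd w u := by simp only [sd]; ring

lemma contact {r : I → ℝ} {v wp wm : Fin 3 → Fin 3 → ℝ} (h : Good r v wp wm) {a b : I}
    (hab : con a b) : (r a + r b) ^ 2 = sd (PP r v wp wm a) (PP r v wp wm b) := by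
  have hq : ∀ i, qq r i ≠ 0 := fun i => by linarith [h.q1 i]
  rcases a with (i | i) | (i | i) <;> rcases b with (j | j) | (j | j) <;>
    simp only [con, PP] at hab ⊢
  · exact contact_oo h hab
  · exact contact_ow (h.vv i) (h.pp j) (h.pv j i hab)
  · exact contact_ow (h.vv i) (h.mm j) (h.mv j i hab)
  · exact contact_nn h hab
  · exact contact_nw h.pos (hq i) (h.vv i) (h.pp j) (h.pv j i hab)
  · exact contact_nw h.pos (hq i) (h.vv i) (h.mm j) (h.mv j i hab)
  · rw [add_comm, sd_comm]; exact contact_ow (h.vv j) (h.pp i) (h.pv i j hab)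
  · rw [add_comm, sd_comm]
    exact contact_nw h.pos (hq j) (h.vv j) (h.pp i) (h.pv i j hab)
  · rw [add_comm, sd_comm]; exact contact_ow (h.vv j) (h.mm i) (h.mv i j hab)
  · rw [add_comm, sd_comm]
    exact contact_nw h.pos (hq j) (h.vv j) (h.mm i) (h.mv i j hab)

lemma exists_good : ∃ v wp wm : Fin 3 → (I → ℝ) → Fin 3 → ℝ, ∀ᶠ r in 𝓝 r0,
    Good r (fun i => v i r) (fun i => wp i r) (fun i => wm i r) := by
  obtain ⟨v, tv, hv⟩ := exists_outer
  obtain ⟨wp, tp, hp⟩ := exists_mirror wa (Or.inl rfl) v tv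
  obtain ⟨wm, tm, hm⟩ := exists_mirror wb (Or.inr rfl) v tv
  refine ⟨v, wp, wm, ?_⟩
  have hT : ∀ a : I, Tendsto (fun r => PP r (fun i => v i r) (fun i => wp i r) (fun i => wm i r) a)
      (𝓝 r0) (𝓝 (BR a)) := by
    intro a
    rcases a with (i | i) | (i | i)
    · exact tv i
    · rw [tendsto_pi_nhds]
      intro c
      have h1 := (tendsto_pi_nhds.mp (tv i)) c
      have h2 := ((tendsto_const_nhds (x := (3456 : ℝ))).div (tq i) (by norm_num)).mul h1
      refine tcast h2 ?_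
      simp only [BR, B, o]
      split_ifs <;> norm_num
    · exact tp i
    · exact tm i
  have e1 : ∀ᶠ r in 𝓝 r0, ∀ a : I, 0 < r a :=
    eventually_all.mpr fun a => (tr a).eventually_const_lt (r0_pos a)
  have e2 : ∀ᶠ r in 𝓝 r0, ∀ i, 3456 < qq r i :=
    eventually_all.mpr fun i => (tq i).eventually_const_lt (by norm_num)
  have e3 : ∀ᶠ r in 𝓝 r0, ∀ a b, a ≠ b → ¬ con a b → (r a + r b) ^ 2 ≤
      sd (PP r (fun i => v i r) (fun i => wp i r) (fun i => wm i r) a)
        (PP r (fun i => v i r) (fun i => wp i r) (fun i => wm i r) b) := by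
    refine eventually_all.mpr fun a => eventually_all.mpr fun b => ?_
    by_cases hab : a ≠ b ∧ ¬ con a b
    · have hb := base_sep a b hab.1 hab.2
      have t1 : Tendsto (fun r : I → ℝ => (r a + r b) ^ 2) (𝓝 r0)
          (𝓝 (2 * ((sI a : ℝ) + sI b) ^ 2)) := by
        refine tcast (((tr a).add (tr b)).pow 2) ?_
        have := r0_mul a b
        have := r0_mul a a
        have := r0_mul b b
        nlinarith
      have ha := fun c => (tendsto_pi_nhds.mp (hT a)) c
      have hb' := fun c => (tendsto_pi_nhds.mp (hT b)) c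
      have t2 : Tendsto (fun r : I → ℝ =>
          sd (PP r (fun i => v i r) (fun i => wp i r) (fun i => wm i r) a)
          (PP r (fun i => v i r) (fun i => wp i r) (fun i => wm i r) b)) (𝓝 r0)
          (𝓝 (sd (BR a) (BR b))) :=
        (((((ha 0).sub (hb' 0)).pow 2).add (((ha 1).sub (hb' 1)).pow 2))).add
          (((ha 2).sub (hb' 2)).pow 2)
      have hlt : 2 * ((sI a : ℝ) + sI b) ^ 2 < sd (BR a) (BR b) := by
        simp only [sd, BR]
        exact_mod_cast hb
      filter_upwards [t1.eventually_lt t2 hlt] with r hr _ _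
      exact hr.le
    · filter_upwards with r h1 h2
      exact absurd ⟨h1, h2⟩ hab
  filter_upwards [hv, hp, hm, e1, e2, e3] with r h1 h2 h3 h4 h5 h6
  exact ⟨h4, h5, h1.1, h1.2, h2.1, h2.2, h3.1, h3.2, h6⟩

theorem main : ∃ n : ℕ, ∃ r : Fin n → ℝ, ∃ p : Fin n → EuclideanSpace ℝ (Fin 3),
    ∃ ω : Fin n → Fin n → ℝ,
      (∀ i, 0 < r i) ∧
      AlgebraicIndependent ℚ r ∧
      (∀ i j, i ≠ j → r i + r j ≤ dist (p i) (p j)) ∧
      (∀ i j, ω i j = ω j i) ∧
      (∀ i j, ω i j ≠ 0 → i ≠ j ∧ dist (p i) (p j) = r i + r j) ∧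
      (∃ i j, ω i j ≠ 0) ∧
      (∀ i, ∑ j, ω i j • (p j - p i) = 0) := by
  obtain ⟨v, wp, wm, hev⟩ := exists_good
  obtain ⟨r, hg, hi⟩ := exists_algInd_of_eventually hev
  set P := PP r (fun i => v i r) (fun i => wp i r) (fun i => wm i r) with hP
  obtain ⟨X, Z, Y, hne, F, S, hF, hS⟩ := exists_sol (fun k => wp k r) (fun k => wm k r)
    (fun k => v k r) (fun i => 3456 - qq r i)
  have hq : ∀ i, qq r i ≠ 0 := fun i => by linarith [hg.q1 i]
  have hrq : ∀ i, 3456 - qq r i ≠ 0 := fun i => by linarith [hg.q1 i]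
  let W := om 3456 (qq r) X Z Y
  have hdist : ∀ a b : I, dist (WithLp.toLp 2 (P a) : EuclideanSpace ℝ (Fin 3))
      (WithLp.toLp 2 (P b)) = √(sd (P a) (P b)) := by
    intro a b
    rw [EuclideanSpace.dist_eq]
    congr 1
    simp [Fin.sum_univ_three, sd, Real.dist_eq, sq_abs]
  have hcon : ∀ a b : I, con a b → dist (WithLp.toLp 2 (P a) : EuclideanSpace ℝ (Fin 3))
      (WithLp.toLp 2 (P b)) = r a + r b := by
    intro a b hab
    rw [hdist, ← contact hg hab, Real.sqrt_sq (by linarith [hg.pos a, hg.pos b])]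
  have hW : ∃ a b, W a b ≠ 0 := by
    rcases hne with h | h | h
    · obtain ⟨k, hk⟩ := Function.ne_iff.mp h
      refine ⟨.inr (.inl k), .inl (.inl (k + 1)), ?_⟩
      simp only [W, om, oA, if_true]
      exact div_ne_zero hk (hrq _)
    · obtain ⟨k, hk⟩ := Function.ne_iff.mp h
      refine ⟨.inr (.inr k), .inl (.inl (k + 1)), ?_⟩
      simp only [W, om, oA, if_true]
      exact div_ne_zero hk (hrq _)
    · obtain ⟨k, hk⟩ := Function.ne_iff.mp h
      refine ⟨.inl (.inl (k + 1)), .inl (.inl (k + 2)), ?_⟩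
      have h1 : k + 1 ≠ k + 2 := by fin_cases k <;> decide
      have h2 : -(k + 1 + (k + 2)) = k := by fin_cases k <;> decide
      simp only [W, om, oS, h1, if_false, h2]
      exact hk
  let e := Fintype.equivFin I
  refine ⟨Fintype.card I, r ∘ e.symm, fun i => WithLp.toLp 2 (P (e.symm i)),
    fun i j => W (e.symm i) (e.symm j), fun i => hg.pos _, hi.comp _ e.symm.injective, ?_, ?_, ?_,
    ?_, ?_⟩
  · intro i j hij
    have hij' : e.symm i ≠ e.symm j := fun h => hij (e.symm.injective h)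
    by_cases hc : con (e.symm i) (e.symm j)
    · exact (hcon _ _ hc).ge
    · show r (e.symm i) + r (e.symm j) ≤ _
      rw [hdist]
      exact Real.le_sqrt_of_sq_le (hg.sep _ _ hij' hc)
  · intro i j
    exact om_symm _ _ _ _ _ _ _
  · intro i j hij
    have hc := om_con hij
    exact ⟨fun h => con_ne hc (by rw [h]), hcon _ _ hc⟩
  · obtain ⟨a, b, hab⟩ := hW
    exact ⟨e a, e b, by simpa using hab⟩
  · intro i
    rw [← e.sum_comp]
    ext c
    have := equil 3456 (qq r) X Z Y (fun i => v i r c) (fun k => wp k r c) (fun k => wm k r c)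
      (by norm_num) hq hrq (F c) S (hF c) hS (e.symm i)
    simp only [WithLp.ofLp_sum, Finset.sum_apply, PiLp.smul_apply, PiLp.sub_apply, smul_eq_mul,
      Equiv.symm_apply_apply, PiLp.zero_apply]
    rw [← this]
    apply Finset.sum_congr rfl
    intro b _
    rw [hP, PP_pos, PP_pos]

end Pool.Agent.H263R2.Stress
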